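import Pool.Agent.DH97.R

/-!
# The Derrida-Hilhorst singularity with its amplitude, integer exponent

Let `E[Z^p] = 1`, `p ≥ 1` an integer. The Lyapunov exponent of the matrices `((1, ε), (ε Z, Z))`
satisfies
`L(ε) = Σ_{k < p} (-1)^(k+1) l_k ε^(2k) + (-1)^(p-1) C ε^(2p) log(1/ε) + o(ε^(2p) log(1/ε))` with the
explicit amplitude `C = (2 / p) (Σ_{j < p} binom(p, j) μ_j)² / E[Z^p log Z]`, where `μ_0 = 1` and
`μ_j = E[Z^j] / (1 - E[Z^j]) Σ_{i < j} binom(j, i) μ_i`; moreover `μ_j = E[X^j]` for the perpetuity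
`X = Z_0 + Z_0 Z_1 + Z_0 Z_1 Z_2 + ⋯`, and `C = 0` when `E[Z^p log⁺ Z] = ∞`. For example
`C = 2 / E[Z log Z]` for `p = 1` and `C = ((1 + E Z) / (1 - E Z))² / E[Z² log Z]` for `p = 2`.

Idea of the proof. For the chain `X_{n+1} = Z_n (1 + X_n) / (1 + a X_n)`, `a = ε²`, the function
`K(y) = E log(1 + y (1 + X))` solves the equation `K(y) = log(1 + y) + E K(Z y / (1 + y))` exactly.
Subtracting the Taylor polynomials of degree `p - 1` inside the expectation, one gets an exact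
formula for `L` as a sum of moments of the chain of orders below `p`, which have expansions in powers
of `a` up to `O(a^p)`, and of the mean of a function `ψ(a x)` with `ψ(y) = (G / p) y^p + O(y^(p+1))`,
`G = E[(1 + X)^p - X^p]`. The `p`-th moment of the chain is asymptotic to
`G log(1/a) / E[Z^p log Z]`.
-/

open MeasureTheory ProbabilityTheory Filter Topology Asymptotics
open Pool.Agent.H741R4.DH Pool.Agent.DH97

namespace Pool.Agent.Results.MP_132c94_pr.IntegerAmplitude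

theorem result {Ω : Type*} [MeasurableSpace Ω] (P : Measure Ω) [IsProbabilityMeasure P]
    (Z : ℕ → Ω → ℝ) (hmeas : ∀ n, Measurable (Z n)) (hindep : iIndepFun Z P)
    (hident : ∀ n, IdentDistrib (Z n) (Z 0) P P) (hpos : ∀ᵐ ω ∂P, 0 < Z 0 ω)
    (hnonconst : ¬ ∃ c, ∀ᵐ ω ∂P, Z 0 ω = c) (p : ℕ) (hp : 1 ≤ p)
    (hone : ∫ ω, (Z 0 ω) ^ p ∂P = 1) :
    ∃ L : ℝ → ℝ,
      (∀ ε : ℝ, 0 < ε → ε ≤ 1 → ∀ᵐ ω ∂P, Tendsto
        (fun n : ℕ => Real.log (entryNorm (matProd ε (fun k => Z k ω) n)) / (n : ℝ)) atTop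
        (𝓝 (L ε))) ∧
      ∃ l : ℕ → ℝ, (∀ k, 1 ≤ k → k < p → 0 < l k) ∧ ∃ μ : ℕ → ℝ, μ 0 = 1 ∧
        (∀ j, 1 ≤ j → j < p → ∫ ω, (Z 0 ω) ^ j ∂P < 1 ∧
          μ j = (∫ ω, (Z 0 ω) ^ j ∂P) / (1 - ∫ ω, (Z 0 ω) ^ j ∂P)
            * ∑ i ∈ Finset.range j, (j.choose i : ℝ) * μ i) ∧ ∃ C : ℝ,
        (Integrable (fun ω => (Z 0 ω) ^ p * Real.log (Z 0 ω)) P → 0 < C ∧
          C = 2 / p * (∑ j ∈ Finset.range p, (p.choose j : ℝ) * μ j) ^ 2
            / ∫ ω, (Z 0 ω) ^ p * Real.log (Z 0 ω) ∂P) ∧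
        (¬ Integrable (fun ω => (Z 0 ω) ^ p * Real.log (Z 0 ω)) P → C = 0) ∧
        (fun ε : ℝ => L ε - ∑ k ∈ Finset.Icc 1 (p - 1), (-1) ^ (k + 1) * l k * ε ^ (2 * k)
          - (-1) ^ (p - 1) * C * ε ^ (2 * p) * Real.log (1 / ε))
          =o[𝓝[>] 0] (fun ε => ε ^ (2 * p) * Real.log (1 / ε)) := by
  have S : Setup P Z (p : ℝ) :=
    { prob := inferInstance
      meas := hmeas
      indep := hindep
      ident := hident
      pos := hpos
      nonconst := hnonconst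
      hα := by exact_mod_cast hp
      one := by simpa only [Real.rpow_natCast] using hone }
  refine ⟨fun ε => Lf P Z (ε ^ 2), fun ε hε hε1 => S.lyap hε hε1, ?_⟩
  obtain ⟨l, hl, h⟩ := main_int_eps S hp
  refine ⟨l, hl, fun j => ∫ ω, (Xinf Z ω) ^ j ∂P, by simp, fun j hj1 hjp => ⟨?_, ?_⟩, _, ?_, ?_, h⟩
  · exact S.qk_lt_one hj1 (by exact_mod_cast hjp)
  · exact mu_rec S hj1 (by exact_mod_cast hjp)
  · intro hlog
    have hlog' : Integrable (fun ω => (Z 0 ω) ^ (p : ℝ) * Real.log (Z 0 ω)) P := by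
      simpa only [Real.rpow_natCast] using hlog
    have hm : 0 < mm P Z (p : ℝ) := S.m_pos hlog'
    have hG := one_le_G0 S
    have hp0 : (0 : ℝ) < p := by exact_mod_cast hp
    refine ⟨by positivity, ?_⟩
    rw [← G0_int S hp]
    have e : (∫ ω, (Z 0 ω) ^ p * Real.log (Z 0 ω) ∂P) = mm P Z (p : ℝ) := by
      unfold mm
      simp only [Real.rpow_natCast]
    rw [e]
    field_simp
  · intro hlog
    have hlog' : ¬ Integrable (fun ω => (Z 0 ω) ^ (p : ℝ) * Real.log (Z 0 ω)) P := by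
      simpa only [Real.rpow_natCast] using hlog
    have h0 : mm P Z (p : ℝ) = 0 := integral_undef hlog'
    rw [h0, mul_zero, div_zero]

end Pool.Agent.Results.MP_132c94_pr.IntegerAmplitude
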