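import Pool.Agent.DH97.R

/-!
# The Derrida-Hilhorst singularity with its amplitude, non-integer exponent

Let `E[Z^α] = 1` with `m < α < m + 1`, `m ≥ 1`. The Lyapunov exponent of the matrices
`((1, ε), (ε Z, Z))` satisfies
`L(ε) = Σ_{k ≤ m} (-1)^(k+1) l_k ε^(2k) + (-1)^m C ε^(2α) + o(ε^(2α))` with the explicit amplitude
`C = π / (α |sin πα|) · (E[(1 + X)^α - X^α])² / E[Z^α log Z]`,
where `X = Z_0 + Z_0 Z_1 + Z_0 Z_1 Z_2 + ⋯` is the perpetuity of `Z`, and `C = 0` when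
`E[Z^α log⁺ Z] = ∞`.

Idea of the proof. For the chain `X_{n+1} = Z_n (1 + X_n) / (1 + a X_n)`, `a = ε²`, the function
`K(y) = E log(1 + y (1 + X))` solves the equation `K(y) = log(1 + y) + E K(Z y / (1 + y))` exactly.
Subtracting the Taylor polynomials inside the expectation, one gets an exact formula for `L` as a
sum of integer moments of the chain, which have expansions in powers of `a` up to `O(a^(m+1))`, and
of a singular functional, which is asymptotic to `c G a^α`, where `G = E[(1 + X)^α - X^α]` and `c` is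
the limit of `v^(-α) k(v)`, `k(v) = E E_m(v X)`, `E_m` the remainder of the logarithm. Finally `c` is
found by the Mellin transform: `∫ v^(-s-1) k(v) dv = π / (s |sin πs|) E[X^s]` and
`(α - s) E[X^s] → G / E[Z^α log Z]` as `s → α`. The existence of the limits uses the earlier
renewal-theoretic results of the library.
-/

open MeasureTheory ProbabilityTheory Filter Topology Asymptotics
open Pool.Agent.H741R4.DH Pool.Agent.DH97

namespace Pool.Agent.Results.MP_132c94_pr.NonIntegerAmplitude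

/-- The perpetuity `X = Z_0 + Z_0 Z_1 + Z_0 Z_1 Z_2 + ⋯`. -/
noncomputable def perpetuity {Ω : Type*} (Z : ℕ → Ω → ℝ) (ω : Ω) : ℝ :=
  ∑' j : ℕ, ∏ k ∈ Finset.range (j + 1), Z k ω

theorem result {Ω : Type*} [MeasurableSpace Ω] (P : Measure Ω) [IsProbabilityMeasure P]
    (Z : ℕ → Ω → ℝ) (hmeas : ∀ n, Measurable (Z n)) (hindep : iIndepFun Z P)
    (hident : ∀ n, IdentDistrib (Z n) (Z 0) P P) (hpos : ∀ᵐ ω ∂P, 0 < Z 0 ω)
    (hnonconst : ¬ ∃ c, ∀ᵐ ω ∂P, Z 0 ω = c)
    (hnonarith : ¬ ∃ c : ℝ, 0 < c ∧ ∀ᵐ ω ∂P, ∃ n : ℤ, c * Real.log (Z 0 ω) = n)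
    (α : ℝ) (m : ℕ) (hm1 : 1 ≤ m) (hmα : (m : ℝ) < α) (hαm : α < (m : ℝ) + 1)
    (hone : ∫ ω, (Z 0 ω) ^ α ∂P = 1) :
    (∀ᵐ ω ∂P, Summable fun j : ℕ => ∏ k ∈ Finset.range (j + 1), Z k ω) ∧
    Integrable (fun ω => (1 + perpetuity Z ω) ^ α - (perpetuity Z ω) ^ α) P ∧
    ∃ L : ℝ → ℝ,
      (∀ ε : ℝ, 0 < ε → ε ≤ 1 → ∀ᵐ ω ∂P, Tendsto
        (fun n : ℕ => Real.log (entryNorm (matProd ε (fun k => Z k ω) n)) / (n : ℝ)) atTop
        (𝓝 (L ε))) ∧
      ∃ l : ℕ → ℝ, (∀ k, 1 ≤ k → k ≤ m → 0 < l k) ∧ ∃ C : ℝ,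
        (Integrable (fun ω => (Z 0 ω) ^ α * Real.log (Z 0 ω)) P → 0 < C ∧
          C = Real.pi / (α * |Real.sin (Real.pi * α)|)
            * (∫ ω, ((1 + perpetuity Z ω) ^ α - (perpetuity Z ω) ^ α) ∂P) ^ 2
            / ∫ ω, (Z 0 ω) ^ α * Real.log (Z 0 ω) ∂P) ∧
        (¬ Integrable (fun ω => (Z 0 ω) ^ α * Real.log (Z 0 ω)) P → C = 0) ∧
        (fun ε : ℝ => L ε - ∑ k ∈ Finset.Icc 1 m, (-1) ^ (k + 1) * l k * ε ^ (2 * k)
          - (-1) ^ m * C * ε ^ (2 * α))
          =o[𝓝[>] 0] (fun ε => ε ^ (2 * α)) := by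
  have S : Setup P Z α :=
    { prob := inferInstance
      meas := hmeas
      indep := hindep
      ident := hident
      pos := hpos
      nonconst := hnonconst
      hα := by
        have : (1 : ℝ) ≤ m := by exact_mod_cast hm1
        linarith
      one := hone }
  have hα := S.α_pos
  refine ⟨summ S, int_G S, fun ε => Lf P Z (ε ^ 2), fun ε hε hε1 => S.lyap hε hε1, ?_⟩
  obtain ⟨l, hl, h⟩ := main_non_eps S hm1 hmα hαm hnonarith
  refine ⟨l, hl, _, ?_, ?_, h⟩
  · intro hlog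
    have hm : 0 < mm P Z α := S.m_pos hlog
    have hG := one_le_G0 S
    have hs : 0 < |Real.sin (Real.pi * α)| := by
      have h1 := kapC_eq hmα hαm
      have h2 : 0 < kapC m α := by
        unfold kapC
        have := sin_pos' hmα hαm
        have := Real.pi_pos
        positivity
      rw [h1] at h2
      have h3 : |Real.sin (Real.pi * α)| ≠ 0 := by
        intro h0
        rw [h0, mul_zero, div_zero] at h2
        exact lt_irrefl _ h2
      exact lt_of_le_of_ne (abs_nonneg _) h3.symm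
    have hpi := Real.pi_pos
    refine ⟨by positivity, ?_⟩
    change Real.pi * G0 P Z α ^ 2 / (α * |Real.sin (Real.pi * α)| * mm P Z α)
      = Real.pi / (α * |Real.sin (Real.pi * α)|) * G0 P Z α ^ 2 / mm P Z α
    field_simp
  · intro hlog
    have h0 : mm P Z α = 0 := integral_undef hlog
    rw [h0, mul_zero, div_zero]

end Pool.Agent.Results.MP_132c94_pr.NonIntegerAmplitude
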